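import Pool.Agent.helper95.BW.Spec

/-!
# Row LEV of MP_0e28f3_gt
-/

set_option autoImplicit false

namespace Pool.Agent.helper95.BW

open Matrix

theorem LEV : LEV_stmt := by
  intro κ s v hv
  induction s with
  | nil => exact hv
  | cons i s ih =>
    change Lev κ (mv i (run s v))
    generalize run s v = w at ih
    obtain ⟨x, y, z⟩ := w
    unfold Lev at ih ⊢
    simp only at ih
    rw [← ih]
    cases i <;> simp only [mv] <;> ring

end Pool.Agent.helper95.BW
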